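import Mathlib

/-!
# Piece RT : roots of proper powers in free groups
-/

namespace IM

open FreeGroup

/-- Two commuting words are powers of a common word. -/
theorem exists_common_root {α : Type*} : ∀ (n : ℕ) (a b : List α), a.length + b.length ≤ n →
    a ++ b = b ++ a → ∃ (c : List α) (i j : ℕ), a = (List.replicate i c).flatten ∧
      b = (List.replicate j c).flatten := by
  intro n
  induction n with
  | zero =>
    intro a b hn _
    have ha : a = [] := List.length_eq_zero_iff.mp (by omega)
    have hb : b = [] := List.length_eq_zero_iff.mp (by omega)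
    exact ⟨[], 0, 0, by simp [ha], by simp [hb]⟩
  | succ n ih =>
    have main : ∀ a b : List α, a.length + b.length ≤ n + 1 → a ++ b = b ++ a →
        a.length ≤ b.length → ∃ (c : List α) (i j : ℕ), a = (List.replicate i c).flatten ∧
      b = (List.replicate j c).flatten := by
      intro a b hn hab hle
      by_cases ha : a = []
      · exact ⟨b, 0, 1, by simp [ha], by simp⟩
      have hpre : a <+: b := by
        have h1 : a <+: b ++ a := ⟨b, hab⟩
        have h2 : b <+: b ++ a := ⟨a, rfl⟩
        exact List.prefix_of_prefix_length_le h1 h2 hle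
      obtain ⟨b', rfl⟩ := hpre
      have hab' : a ++ b' = b' ++ a := by
        rw [List.append_assoc] at hab
        exact List.append_cancel_left hab
      have hlen : 0 < a.length := List.length_pos_iff.mpr ha
      obtain ⟨c, i, j, h1, h2⟩ := ih a b' (by simp only [List.length_append] at hn; omega) hab'
      refine ⟨c, i, i + j, h1, ?_⟩
      rw [← List.replicate_append_replicate, List.flatten_append, ← h1, ← h2]
    intro a b hn hab
    rcases le_total a.length b.length with h | h
    · exact main a b hn hab h
    · obtain ⟨c, i, j, h1, h2⟩ := main b a (by omega) hab.symm h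
      exact ⟨c, j, i, h2, h1⟩

theorem mk_flatten_replicate {A : Type*} (c : List (A × Bool)) (m : ℕ) :
    (FreeGroup.mk (List.replicate m c).flatten : FreeGroup A) = FreeGroup.mk c ^ m := by
  induction m with
  | zero => simp [← FreeGroup.one_eq_mk]
  | succ m ih => rw [List.replicate_succ, List.flatten_cons, ← FreeGroup.mul_mk, ih, pow_succ']

theorem isCyclicallyReduced_of_flatten {A : Type*} (c : List (A × Bool)) (m : ℕ)
    (h : FreeGroup.IsCyclicallyReduced (List.replicate (m + 2) c).flatten) :
    FreeGroup.IsCyclicallyReduced c := by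
  have h1 : FreeGroup.IsReduced (c ++ (c ++ (List.replicate m c).flatten)) := by
    simpa [List.replicate_succ] using h.1
  have h2 : FreeGroup.IsReduced (c ++ c) := by
    unfold FreeGroup.IsReduced at h1 ⊢
    rw [← List.append_assoc, List.isChain_append] at h1
    exact h1.1
  unfold FreeGroup.IsReduced at h2
  rw [List.isChain_append] at h2
  exact ⟨h2.1, h2.2.2⟩

theorem exists_root {A : Type*} (g : FreeGroup A) (hg : g ≠ 1)
    (hpow : ∃ (v : FreeGroup A) (k : ℕ), 2 ≤ k ∧ g = v ^ k) :
    ∃ (y : FreeGroup A) (t : List (A × Bool)) (N : ℕ), 2 ≤ N ∧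
      g = y * FreeGroup.mk t ^ N * y⁻¹ ∧ t ≠ [] ∧ FreeGroup.IsCyclicallyReduced t ∧
      ∀ k, 0 < k → k < t.length → t.rotate k ≠ t := by
  classical
  have hex : ∃ n : ℕ, ∃ (y : FreeGroup A) (t : List (A × Bool)) (N : ℕ), 2 ≤ N ∧
      g = y * FreeGroup.mk t ^ N * y⁻¹ ∧ t ≠ [] ∧ FreeGroup.IsCyclicallyReduced t ∧
      t.length = n := by
    obtain ⟨v, k, hk, rfl⟩ := hpow
    set c := reduceCyclically.conjugator v.toWord with hc
    set r := reduceCyclically v.toWord with hr
    have hv : v = FreeGroup.mk c * FreeGroup.mk r * (FreeGroup.mk c)⁻¹ := by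
      rw [FreeGroup.inv_mk, FreeGroup.mul_mk, FreeGroup.mul_mk, hc, hr,
        reduceCyclically.conj_conjugator_reduceCyclically, FreeGroup.mk_toWord]
    refine ⟨r.length, FreeGroup.mk c, r, k, hk, ?_, ?_, ?_, rfl⟩
    · rw [← conj_pow, ← hv]
    · intro h0
      apply hg
      rw [h0, ← FreeGroup.one_eq_mk] at hv
      have hv1 : v = 1 := by rw [hv, mul_one, mul_inv_cancel]
      rw [hv1, one_pow]
    · exact reduceCyclically.isCyclicallyReduced FreeGroup.isReduced_toWord
  obtain ⟨y, t, N, hN, hgt, ht, hcr, hlen⟩ := Nat.find_spec hex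
  refine ⟨y, t, N, hN, hgt, ht, hcr, ?_⟩
  intro k hk0 hk hrot
  rw [List.rotate_eq_drop_append_take hk.le] at hrot
  have hcomm : t.take k ++ t.drop k = t.drop k ++ t.take k := by
    rw [List.take_append_drop, hrot]
  obtain ⟨c, i, j, hi, hj⟩ := exists_common_root _ _ _ le_rfl hcomm
  have ht' : t = (List.replicate (i + j) c).flatten := by
    rw [← List.replicate_append_replicate, List.flatten_append, ← hi, ← hj,
      List.take_append_drop]
  have hi0 : i ≠ 0 := by
    rintro rfl
    have : (t.take k).length = 0 := by rw [hi]; simp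
    rw [List.length_take] at this
    omega
  have hj0 : j ≠ 0 := by
    rintro rfl
    have : (t.drop k).length = 0 := by rw [hj]; simp
    rw [List.length_drop] at this
    omega
  have hcne : c ≠ [] := by
    rintro rfl
    apply ht
    rw [ht']; simp
  obtain ⟨m, hm⟩ : ∃ m, i + j = m + 2 := ⟨i + j - 2, by omega⟩
  have hlt : c.length < t.length := by
    have : t.length = (i + j) * c.length := by rw [ht']; simp
    have hc0 : 0 < c.length := List.length_pos_iff.mpr hcne
    rw [this, hm]
    nlinarith
  refine Nat.find_min hex (hlen ▸ hlt) ⟨y, c, (i + j) * N, ?_, ?_, hcne, ?_, rfl⟩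
  · rw [hm]; nlinarith
  · rw [hgt, ht', mk_flatten_replicate, pow_mul]
  · rw [ht', hm] at hcr
    exact isCyclicallyReduced_of_flatten c m hcr

end IM
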